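import Pool.Agent.V11270.Liou.Root2

/-!
# MP_6d7a61: the pair `(m, n)` is admissible if and only if `m ≥ 2`
-/

set_option autoImplicit false

open Finset Filter Topology

namespace Pool.Agent.Results.MP_6d7a61_nt.AdmissiblePairs

/-- A real `m × n` matrix `A` is a Liouville matrix if `A q ≠ p` for all integer vectors
`(q, p) ≠ (0, 0)` and for every `N > 0` there are integer vectors `q`, `p` with `‖q‖ ≥ 2` and
`‖A q - p‖ < ‖q‖ ^ (-N)`; the norms are supremum norms. -/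
def IsLiouvilleMatrix {m n : ℕ} (A : Matrix (Fin m) (Fin n) ℝ) : Prop :=
  (∀ (q : Fin n → ℤ) (p : Fin m → ℤ), ¬ (q = 0 ∧ p = 0) →
    A.mulVec (fun j => (q j : ℝ)) ≠ fun i => (p i : ℝ)) ∧
  ∀ N : ℝ, 0 < N → ∃ (q : Fin n → ℤ) (p : Fin m → ℤ), 2 ≤ ‖q‖ ∧
    ‖A.mulVec (fun j => (q j : ℝ)) - fun i => (p i : ℝ)‖ < ‖q‖ ^ (-N)

/-- A map is nowhere constant if it is constant on no non-empty open set. -/
def NowhereConst {X Y : Type*} [TopologicalSpace X] (g : X → Y) : Prop :=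
  ∀ U : Set X, IsOpen U → U.Nonempty → ¬ ∃ c : Y, ∀ x ∈ U, g x = c

/-- The LIC property. -/
def LIC {m n : ℕ} (f : Matrix (Fin m) (Fin n) ℝ → Matrix (Fin m) (Fin n) ℝ) : Prop :=
  ∀ Ω : Set (Matrix (Fin m) (Fin n) ℝ), (interior Ω).Nonempty →
    ¬ ∃ (p : Fin m → ℤ) (q : Fin n → ℤ), q ≠ 0 ∧
      ∀ A ∈ Ω, (f A).mulVec (fun j => (q j : ℝ)) = fun i => (p i : ℝ)

/-- Strongly nowhere constant maps. -/
def StronglyNowhereConst {m n : ℕ}
    (f : Matrix (Fin m) (Fin n) ℝ → Matrix (Fin m) (Fin n) ℝ) : Prop :=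
  ∀ (R₁ : Matrix (Fin m) (Fin m) ℚ) (R₂ : Matrix (Fin n) (Fin n) ℚ)
    (T : Matrix (Fin m) (Fin n) ℚ), IsUnit R₁ → IsUnit R₂ → ∀ (i : Fin m) (j : Fin n),
    NowhereConst fun A : Matrix (Fin m) (Fin n) ℝ =>
      (R₁.map (fun x : ℚ => (x : ℝ)) * f A * R₂.map (fun x : ℚ => (x : ℝ)) +
        T.map (fun x : ℚ => (x : ℝ))) i j

/-- The pair `(m, n)` is admissible. -/
def Admissible (m n : ℕ) : Prop :=
  ∃ f : Matrix (Fin m) (Fin n) ℝ → Matrix (Fin m) (Fin n) ℝ, Continuous f ∧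
    StronglyNowhereConst f ∧ LIC f ∧ ∀ A, ¬ IsLiouvilleMatrix (f A)

/-! ### The pairs `(1, n)` -/

theorem map_ratCast_one {k : ℕ} : (1 : Matrix (Fin k) (Fin k) ℚ).map (fun x : ℚ => (x : ℝ)) = 1 := by
  ext i j
  rw [Matrix.map_apply, Matrix.one_apply, Matrix.one_apply]
  split_ifs <;> simp

theorem continuous_mulVec' {m n : ℕ} {f : Matrix (Fin m) (Fin n) ℝ → Matrix (Fin m) (Fin n) ℝ}
    (hf : Continuous f) (q : Fin n → ℤ) :
    Continuous fun A => (f A).mulVec (fun j => (q j : ℝ)) :=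
  Continuous.matrix_mulVec hf continuous_const

theorem exists_rat_value {E : Type*} [NormedAddCommGroup E] [NormedSpace ℝ E] {g : E → ℝ}
    (hg : Continuous g) (hnc : NowhereConst g) {W : Set E} (hW : IsOpen W) (hne : W.Nonempty) :
    ∃ A ∈ W, ∃ r : ℚ, g A = r := by
  obtain ⟨A0, hA0⟩ := hne
  obtain ⟨ε, hε, hball⟩ := Metric.isOpen_iff.mp hW A0 hA0
  have hconv : IsPreconnected (Metric.ball A0 ε) := (convex_ball _ _).isPreconnected
  have h1 := hnc (Metric.ball A0 ε) Metric.isOpen_ball ⟨A0, Metric.mem_ball_self hε⟩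
  push Not at h1
  obtain ⟨A1, hA1, hA1n⟩ := h1 (g A0)
  rcases lt_or_gt_of_ne hA1n with hlt | hlt
  · obtain ⟨r, hr1, hr2⟩ := exists_rat_btwn hlt
    obtain ⟨A2, hA2, hA2e⟩ := hconv.intermediate_value hA1 (Metric.mem_ball_self hε)
      hg.continuousOn (Set.mem_Icc.mpr ⟨hr1.le, hr2.le⟩)
    exact ⟨A2, hball hA2, r, hA2e⟩
  · obtain ⟨r, hr1, hr2⟩ := exists_rat_btwn hlt
    obtain ⟨A2, hA2, hA2e⟩ := hconv.intermediate_value (Metric.mem_ball_self hε) hA1
      hg.continuousOn (Set.mem_Icc.mpr ⟨hr1.le, hr2.le⟩)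
    exact ⟨A2, hball hA2, r, hA2e⟩

theorem not_admissible_one {n : ℕ} (hn : 1 ≤ n) : ¬ Admissible 1 n := by
  rintro ⟨f, hf, hsnc, hlic, hnot⟩
  set k0 : Fin n := ⟨0, hn⟩ with hk0
  -- the first entry is nowhere constant
  have hnc : NowhereConst (fun A => f A 0 k0) := by
    have := hsnc 1 1 0 isUnit_one isUnit_one 0 k0
    intro U hU hUn hc
    refine this U hU hUn ?_
    obtain ⟨c, hc⟩ := hc
    refine ⟨c, fun A hA => ?_⟩
    simp only [map_ratCast_one, Matrix.one_mul, Matrix.mul_one, Matrix.add_apply,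
      Matrix.map_apply, Matrix.zero_apply, Rat.cast_zero, add_zero]
    exact hc A hA
  -- the open dense sets
  let S : ({q : Fin n → ℤ // q ≠ 0} × (Fin 1 → ℤ)) ⊕ ℕ → Set (Matrix (Fin 1) (Fin n) ℝ) :=
    fun s => match s with
      | Sum.inl (q, p) => {A | (f A).mulVec (fun j => (q.1 j : ℝ)) ≠ fun i => (p i : ℝ)}
      | Sum.inr N => ⋃ (q : Fin n → ℤ) (p : Fin 1 → ℤ) (_ : 2 ≤ ‖q‖),
          {A | ‖(f A).mulVec (fun j => (q j : ℝ)) - fun i => (p i : ℝ)‖ < ‖q‖ ^ (-(N : ℝ))}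
  have hSo : ∀ s, IsOpen (S s) := by
    rintro (⟨q, p⟩ | N)
    · exact isOpen_ne_fun (continuous_mulVec' hf q.1) continuous_const
    · refine isOpen_iUnion fun q => isOpen_iUnion fun p => isOpen_iUnion fun _ => ?_
      exact isOpen_lt (((continuous_mulVec' hf q).sub continuous_const).norm) continuous_const
  have hSd : ∀ s, Dense (S s) := by
    rintro (⟨q, p⟩ | N)
    · have hd : Dense ((S (Sum.inl (q, p)))ᶜ)ᶜ := by
        rw [← interior_eq_empty_iff_dense_compl]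
        by_contra hne
        have hne' : (interior (S (Sum.inl (q, p)))ᶜ).Nonempty := Set.nonempty_iff_ne_empty.mpr hne
        refine hlic _ hne' ⟨p, q.1, q.2, fun A hA => ?_⟩
        by_contra h
        exact hA h
      rwa [compl_compl] at hd
    · intro A0
      rw [mem_closure_iff]
      intro W hW hA0
      have hcont : Continuous (fun A => f A 0 k0) := (continuous_apply_apply 0 k0).comp hf
      obtain ⟨A2, hA2, r, hr⟩ : ∃ A2 ∈ W, ∃ r : ℚ, f A2 0 k0 = r :=
        exists_rat_value (E := Fin 1 → Fin n → ℝ) hcont hnc hW ⟨A0, hA0⟩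
      refine ⟨A2, hA2, ?_⟩
      show A2 ∈ ⋃ (q : Fin n → ℤ) (p : Fin 1 → ℤ) (_ : 2 ≤ ‖q‖),
          {A | ‖(f A).mulVec (fun j => (q j : ℝ)) - fun i => (p i : ℝ)‖ < ‖q‖ ^ (-(N : ℝ))}
      simp only [Set.mem_iUnion]
      have hnorm : 2 ≤ ‖(Pi.single k0 (2 * (r.den : ℤ)) : Fin n → ℤ)‖ := by
        rw [Pi.norm_single, Int.norm_eq_abs]
        have h2 : (1 : ℝ) ≤ (r.den : ℝ) := by exact_mod_cast r.den_pos
        push_cast
        rw [abs_of_nonneg (by positivity)]
        linarith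
      refine ⟨Pi.single k0 (2 * (r.den : ℤ)), fun _ => 2 * r.num, hnorm, ?_⟩
      have hzero : (f A2).mulVec (fun j => (((Pi.single k0 (2 * (r.den : ℤ)) : Fin n → ℤ) j : ℤ) : ℝ))
          - (fun _ : Fin 1 => ((2 * r.num : ℤ) : ℝ)) = 0 := by
        ext i
        have hi : i = 0 := Subsingleton.elim _ _
        subst hi
        rw [Pi.sub_apply, Matrix.mulVec, dotProduct]
        have : ∀ x : Fin n, f A2 0 x * (((Pi.single k0 (2 * (r.den : ℤ)) : Fin n → ℤ) x : ℤ) : ℝ) =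
            if x = k0 then (r : ℝ) * (2 * r.den) else 0 := by
          intro x
          by_cases hx : x = k0
          · rw [if_pos hx, hx, Pi.single_eq_same, hr]
            push_cast
            ring
          · rw [if_neg hx, Pi.single_eq_of_ne hx]
            simp
        simp only [this]
        rw [Finset.sum_ite_eq' Finset.univ k0, if_pos (Finset.mem_univ _)]
        have hden : (r : ℝ) * r.den = r.num := by exact_mod_cast Rat.mul_den_eq_num r
        push_cast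
        rw [Pi.zero_apply]
        linear_combination 2 * hden
      show ‖_‖ < _
      rw [hzero, norm_zero]
      exact Real.rpow_pos_of_pos (by linarith) _
  have hBaire : BaireSpace (Matrix (Fin 1) (Fin n) ℝ) :=
    inferInstanceAs (BaireSpace (Fin 1 → Fin n → ℝ))
  have hd := dense_iInter_of_isOpen hSo hSd
  have hne : Nonempty (Matrix (Fin 1) (Fin n) ℝ) := ⟨0⟩
  obtain ⟨A, hA⟩ := hd.nonempty
  rw [Set.mem_iInter] at hA
  refine hnot A ⟨?_, ?_⟩
  · intro q p hqp
    by_cases hq : q = 0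
    · subst hq
      have hp : p ≠ 0 := fun h => hqp ⟨rfl, h⟩
      intro h
      apply hp
      ext i
      have := congrFun h i
      simp [Matrix.mulVec, dotProduct] at this
      exact_mod_cast this.symm
    · exact hA (Sum.inl (⟨q, hq⟩, p))
  · intro N hN
    have h1 := hA (Sum.inr ⌈N⌉₊)
    have h2 : A ∈ ⋃ (q : Fin n → ℤ) (p : Fin 1 → ℤ) (_ : 2 ≤ ‖q‖),
      {A | ‖(f A).mulVec (fun j => (q j : ℝ)) - fun i => (p i : ℝ)‖ < ‖q‖ ^ (-(⌈N⌉₊ : ℝ))} := h1
    simp only [Set.mem_iUnion] at h2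
    obtain ⟨q, p, hq, hlt⟩ := h2
    refine ⟨q, p, hq, lt_of_lt_of_le hlt ?_⟩
    exact Real.rpow_le_rpow_of_exponent_le (by linarith) (by linarith [Nat.le_ceil N])

/-! ### The pairs `(m, n)` with `m ≥ 2` -/

open Polynomial in
/-- The polynomial `∑ a, w a X ^ (s a)`. -/
noncomputable def vpoly {R : Type*} [CommRing R] {k : ℕ} (s : ℕ) (w : Fin k → R) : R[X] :=
  ∑ a : Fin k, C (w a) * X ^ (s * (a : ℕ))

section vpoly

open Polynomial

variable {R : Type*} [CommRing R] {k : ℕ}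

theorem coeff_vpoly {s : ℕ} (hs : 0 < s) (w : Fin k → R) (a : Fin k) :
    (vpoly s w).coeff (s * (a : ℕ)) = w a := by
  unfold vpoly
  rw [finsetSum_coeff]
  have : ∀ b : Fin k, (C (w b) * X ^ (s * (b : ℕ))).coeff (s * (a : ℕ)) =
      if b = a then w b else 0 := by
    intro b
    rw [coeff_C_mul, coeff_X_pow]
    by_cases hb : b = a
    · subst hb
      simp
    · have h1 : s * (a : ℕ) ≠ s * (b : ℕ) := by
        intro h
        exact hb (Fin.ext (Nat.eq_of_mul_eq_mul_left hs h.symm))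
      rw [if_neg hb, if_neg h1, mul_zero]
  simp only [this]
  rw [Finset.sum_ite_eq' Finset.univ a, if_pos (Finset.mem_univ _)]

theorem vpoly_ne_zero {s : ℕ} (hs : 0 < s) {w : Fin k → R} (hw : w ≠ 0) : vpoly s w ≠ 0 := by
  obtain ⟨a, ha⟩ := Function.ne_iff.mp hw
  intro h
  apply ha
  rw [← coeff_vpoly hs w a, h]
  simp

theorem natDegree_vpoly_le {s : ℕ} (w : Fin k → R) : (vpoly s w).natDegree ≤ s * (k - 1) := by
  unfold vpoly
  refine natDegree_sum_le_of_forall_le _ _ fun a _ => ?_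
  refine (natDegree_C_mul_X_pow_le _ _).trans ?_
  exact Nat.mul_le_mul_left _ (by have := a.2; omega)

theorem aeval_vpoly {A : Type*} [CommRing A] [Algebra R A] {s : ℕ} (w : Fin k → R) (x : A) :
    aeval x (vpoly s w) = ∑ a : Fin k, algebraMap R A (w a) * x ^ (s * (a : ℕ)) := by
  unfold vpoly
  rw [map_sum]
  simp

end vpoly

/-- A real number with `θ ^ d = 2`. -/
theorem exists_theta {d : ℕ} (hd : 0 < d) : ∃ θ : ℝ, 1 ≤ θ ∧ θ ^ d = 2 := by
  refine ⟨(2 : ℝ) ^ (1 / (d : ℝ)), Real.one_le_rpow (by norm_num) (by positivity), ?_⟩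
  rw [← Real.rpow_natCast, ← Real.rpow_mul (by norm_num)]
  rw [one_div, inv_mul_cancel₀ (by exact_mod_cast hd.ne'), Real.rpow_one]

theorem theta_indep {d : ℕ} (hd : 0 < d) {θ : ℝ} (hθ : θ ^ d = 2) {F : Polynomial ℚ}
    (hF : F ≠ 0) (hdeg : F.natDegree < d) : Polynomial.aeval θ F ≠ 0 := by
  intro h
  have hirr := Pool.Agent.V11270.Liou.irr_rat hd
  have hm : (Polynomial.X ^ d - Polynomial.C 2 : Polynomial ℚ).Monic :=
    Polynomial.monic_X_pow_sub_C 2 (by omega)
  have h0 : Polynomial.aeval θ (Polynomial.X ^ d - Polynomial.C 2 : Polynomial ℚ) = 0 := by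
    rw [map_sub, map_pow, Polynomial.aeval_X, Polynomial.aeval_C, hθ]
    simp
  have h1 := minpoly.eq_of_irreducible_of_monic hirr h0 hm
  have h2 := minpoly.degree_le_of_ne_zero ℚ θ hF h
  rw [← h1, Polynomial.degree_X_pow_sub_C hd, Polynomial.degree_eq_natDegree hF] at h2
  have : d ≤ F.natDegree := by exact_mod_cast h2
  omega

section construction

variable {m n : ℕ}

/-- The map: all entries depend on one coordinate of `A` only, the first coordinate `t`, and are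
`t θ ^ (n i + k)`, plus `θ ^ (m n + k)` in the row with index `1`. -/
noncomputable def fmap (θ : ℝ) (i0 : Fin m) (k0 : Fin n) (A : Matrix (Fin m) (Fin n) ℝ) :
    Matrix (Fin m) (Fin n) ℝ :=
  Matrix.of fun i k => A i0 k0 * θ ^ (n * (i : ℕ) + k) +
    if (i : ℕ) = 1 then θ ^ (m * n + k) else 0

theorem continuous_fmap (θ : ℝ) (i0 : Fin m) (k0 : Fin n) : Continuous (fmap θ i0 k0) := by
  refine continuous_matrix fun i k => ?_
  unfold fmap
  simp only [Matrix.of_apply]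
  exact (((continuous_apply_apply i0 k0 : Continuous fun A : Matrix (Fin m) (Fin n) ℝ =>
    A i0 k0)).mul continuous_const).add continuous_const

/-- The real value `Q(θ)` for an integer vector. -/
noncomputable def qv (θ : ℝ) (q : Fin n → ℤ) : ℝ := ∑ k : Fin n, (q k : ℝ) * θ ^ (k : ℕ)

theorem fmap_mulVec (θ : ℝ) (i0 : Fin m) (k0 : Fin n) (A : Matrix (Fin m) (Fin n) ℝ)
    (q : Fin n → ℤ) (i : Fin m) :
    (fmap θ i0 k0 A).mulVec (fun j => (q j : ℝ)) i =
      A i0 k0 * θ ^ (n * (i : ℕ)) * qv θ q + if (i : ℕ) = 1 then θ ^ (m * n) * qv θ q else 0 := by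
  unfold fmap qv Matrix.mulVec dotProduct
  simp only [Matrix.of_apply]
  rw [Finset.mul_sum, Finset.mul_sum]
  by_cases hi : (i : ℕ) = 1
  · simp only [if_pos hi]
    rw [← Finset.sum_add_distrib]
    apply Finset.sum_congr rfl
    intro k _
    rw [pow_add, pow_add]
    ring
  · simp only [if_neg hi, add_zero]
    apply Finset.sum_congr rfl
    intro k _
    rw [pow_add]
    ring

/-- A non-constant affine function of one coordinate is nowhere constant. -/
theorem nowhereConst_affine (i0 : Fin m) (k0 : Fin n) {a b : ℝ} (ha : a ≠ 0) :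
    NowhereConst fun A : Matrix (Fin m) (Fin n) ℝ => A i0 k0 * a + b := by
  intro U hU hUn hc
  obtain ⟨c, hc⟩ := hc
  obtain ⟨A, hA⟩ := hUn
  -- move along the coordinate
  let g : ℝ → Matrix (Fin m) (Fin n) ℝ := fun t =>
    Matrix.of fun i k => A i k + if i = i0 ∧ k = k0 then t else 0
  have hg : Continuous g := by
    refine continuous_matrix fun i k => ?_
    show Continuous fun t : ℝ => A i k + if i = i0 ∧ k = k0 then t else 0
    split_ifs
    · exact continuous_const.add continuous_id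
    · exact continuous_const.add continuous_const
  have hg0 : g 0 = A := by
    ext i k
    show A i k + (if i = i0 ∧ k = k0 then (0 : ℝ) else 0) = A i k
    simp
  have hopen : IsOpen (g ⁻¹' U) := hU.preimage hg
  have h0 : (0 : ℝ) ∈ g ⁻¹' U := by
    rw [Set.mem_preimage, hg0]
    exact hA
  obtain ⟨ε, hε, hball⟩ := Metric.isOpen_iff.mp hopen 0 h0
  have h1 : (ε / 2) ∈ Metric.ball (0 : ℝ) ε := by
    rw [Metric.mem_ball, Real.dist_eq, sub_zero, abs_of_pos (by linarith)]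
    linarith
  have h2 := hc _ (hball h1)
  have h3 := hc _ hA
  have h4 : g (ε / 2) i0 k0 = A i0 k0 + ε / 2 := by
    show A i0 k0 + (if i0 = i0 ∧ k0 = k0 then ε / 2 else 0) = _
    simp
  simp only [h4] at h2
  have h5 : ε / 2 * a = 0 := by linarith
  rcases mul_eq_zero.mp h5 with h | h
  · linarith
  · exact ha h

theorem strongly_fmap {θ : ℝ} (hm : 1 ≤ m) (hn : 1 ≤ n) (hθ : θ ^ (m * n + n) = 2)
    (i0 : Fin m) (k0 : Fin n) : StronglyNowhereConst (fmap θ i0 k0) := by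
  intro R₁ R₂ T hR₁ hR₂ i j
  have hd : 0 < m * n + n := by omega
  -- the value
  set b : ℝ := (R₁.map (fun x : ℚ => (x : ℝ)) * (Matrix.of fun (i : Fin m) (k : Fin n) =>
      if (i : ℕ) = 1 then θ ^ (m * n + (k : ℕ)) else 0) * R₂.map (fun x : ℚ => (x : ℝ)) +
        T.map (fun x : ℚ => (x : ℝ))) i j with hb
  set U : Polynomial ℚ := vpoly n (fun a => R₁ i a) with hU
  set V : Polynomial ℚ := vpoly 1 (fun c => R₂ c j) with hV
  have hu : (fun a => R₁ i a) ≠ 0 := by
    intro h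
    obtain ⟨S, hS⟩ := hR₁.exists_right_inv
    have h1 : (R₁ * S) i i = 1 := by rw [hS, Matrix.one_apply_eq]
    rw [Matrix.mul_apply] at h1
    have h2 : ∀ x, R₁ i x = 0 := fun x => congrFun h x
    simp [h2] at h1
  have hv : (fun c => R₂ c j) ≠ 0 := by
    intro h
    obtain ⟨S, hS⟩ := hR₂.exists_left_inv
    have h1 : (S * R₂) j j = 1 := by rw [hS, Matrix.one_apply_eq]
    rw [Matrix.mul_apply] at h1
    have h2 : ∀ x, R₂ x j = 0 := fun x => congrFun h x
    simp [h2] at h1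
  have hUne : Polynomial.aeval θ U ≠ 0 := by
    refine theta_indep hd hθ (vpoly_ne_zero (by omega) hu) ?_
    refine lt_of_le_of_lt (natDegree_vpoly_le _) ?_
    have : n * (m - 1) ≤ m * n := by
      rw [Nat.mul_comm m n]
      exact Nat.mul_le_mul_left _ (by omega)
    omega
  have hVne : Polynomial.aeval θ V ≠ 0 := by
    refine theta_indep hd hθ (vpoly_ne_zero (by omega) hv) ?_
    refine lt_of_le_of_lt (natDegree_vpoly_le _) ?_
    have : 0 ≤ m * n := Nat.zero_le _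
    omega
  have hfun : (fun A : Matrix (Fin m) (Fin n) ℝ =>
      (R₁.map (fun x : ℚ => (x : ℝ)) * fmap θ i0 k0 A * R₂.map (fun x : ℚ => (x : ℝ)) +
        T.map (fun x : ℚ => (x : ℝ))) i j) =
      fun A => A i0 k0 * (Polynomial.aeval θ U * Polynomial.aeval θ V) + b := by
    funext A
    have hsplit : fmap θ i0 k0 A = A i0 k0 • (Matrix.of fun (i : Fin m) (k : Fin n) =>
        θ ^ (n * (i : ℕ) + (k : ℕ))) + (Matrix.of fun (i : Fin m) (k : Fin n) =>
      if (i : ℕ) = 1 then θ ^ (m * n + (k : ℕ)) else 0) := by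
      ext i k
      unfold fmap
      simp
    rw [hsplit, Matrix.mul_add, Matrix.add_mul, add_assoc, Matrix.add_apply, ← hb,
      Matrix.mul_smul, Matrix.smul_mul, Matrix.smul_apply, smul_eq_mul]
    congr 2
    rw [hU, hV, aeval_vpoly, aeval_vpoly, Finset.sum_mul_sum, Matrix.mul_apply]
    simp only [Matrix.mul_apply, Matrix.map_apply, Matrix.of_apply, Finset.sum_mul]
    rw [Finset.sum_comm]
    apply Finset.sum_congr rfl
    intro a _
    apply Finset.sum_congr rfl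
    intro c _
    rw [pow_add, one_mul]
    simp
    ring
  rw [hfun]
  exact nowhereConst_affine i0 k0 (mul_ne_zero hUne hVne)

theorem qv_ne_zero {θ : ℝ} (hn : 1 ≤ n) (hθ : θ ^ (m * n + n) = 2) {q : Fin n → ℤ}
    (hq : q ≠ 0) : qv θ q ≠ 0 := by
  have hd : 0 < m * n + n := by omega
  have hq' : (fun k => (q k : ℚ)) ≠ 0 := by
    intro h
    apply hq
    funext k
    have h2 : (q k : ℚ) = 0 := congrFun h k
    show q k = 0
    exact_mod_cast h2
  have h1 := theta_indep hd hθ (vpoly_ne_zero (s := 1) (by omega) hq') (by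
    refine lt_of_le_of_lt (natDegree_vpoly_le _) ?_
    have : 0 ≤ m * n := Nat.zero_le _
    omega)
  rw [aeval_vpoly] at h1
  unfold qv
  simpa using h1

theorem lic_fmap {θ : ℝ} (hn : 1 ≤ n) (hθ0 : 1 ≤ θ) (hθ : θ ^ (m * n + n) = 2)
    (i0 : Fin m) (k0 : Fin n) : LIC (fmap θ i0 k0) := by
  intro Ω hΩ
  rintro ⟨p, q, hq, hall⟩
  have hne := qv_ne_zero hn hθ hq
  have ha : θ ^ (n * (i0 : ℕ)) * qv θ q ≠ 0 := mul_ne_zero (by positivity) hne
  refine nowhereConst_affine i0 k0 (b := if (i0 : ℕ) = 1 then θ ^ (m * n) * qv θ q else 0) ha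
    (interior Ω) isOpen_interior hΩ ⟨p i0, fun A hA => ?_⟩
  have h1 := congrFun (hall A (interior_subset hA)) i0
  rw [fmap_mulVec] at h1
  rw [← h1]
  ring

/-- The auxiliary polynomial `X ^ (m n) Q + p₀ X ^ n - p₁`. -/
noncomputable def gpoly (m n : ℕ) (q : Fin n → ℤ) (a b : ℤ) : Polynomial ℤ :=
  Polynomial.X ^ (m * n) * vpoly 1 q + Polynomial.C a * Polynomial.X ^ n - Polynomial.C b

theorem gpoly_ne_zero (hm : 2 ≤ m) (hn : 1 ≤ n) {q : Fin n → ℤ} (hq : q ≠ 0) (a b : ℤ) :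
    gpoly m n q a b ≠ 0 := by
  obtain ⟨j, hj⟩ := Function.ne_iff.mp hq
  intro h
  apply hj
  have h1 := congrArg (fun P => Polynomial.coeff P (1 * (j : ℕ) + m * n)) h
  have hmn : n < 1 * (j : ℕ) + m * n := by nlinarith
  simp only [gpoly, Polynomial.coeff_sub, Polynomial.coeff_add, Polynomial.coeff_X_pow_mul,
    Polynomial.coeff_C_mul, Polynomial.coeff_X_pow, Polynomial.coeff_C, Polynomial.coeff_zero,
    coeff_vpoly one_pos q j] at h1
  rw [if_neg (by omega), if_neg (by omega)] at h1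
  simpa using h1

theorem natDegree_gpoly (hm : 2 ≤ m) (hn : 1 ≤ n) (q : Fin n → ℤ) (a b : ℤ) :
    (gpoly m n q a b).natDegree < m * n + n := by
  unfold gpoly
  have hmn : n ≤ m * n := by nlinarith
  have h1 : (Polynomial.X ^ (m * n) * vpoly 1 q : Polynomial ℤ).natDegree ≤ m * n + (n - 1) := by
    refine Polynomial.natDegree_mul_le.trans ?_
    have h2 := natDegree_vpoly_le (s := 1) q
    have h3 : (Polynomial.X ^ (m * n) : Polynomial ℤ).natDegree ≤ m * n :=
      Polynomial.natDegree_X_pow_le _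
    omega
  have h2 : (Polynomial.C a * Polynomial.X ^ n : Polynomial ℤ).natDegree ≤ n :=
    Polynomial.natDegree_C_mul_X_pow_le _ _
  have h3 : (Polynomial.X ^ (m * n) * vpoly 1 q + Polynomial.C a * Polynomial.X ^ n :
      Polynomial ℤ).natDegree ≤ m * n + (n - 1) :=
    Polynomial.natDegree_add_le_of_degree_le h1 (h2.trans (by omega))
  have h4 : (Polynomial.X ^ (m * n) * vpoly 1 q + Polynomial.C a * Polynomial.X ^ n -
      Polynomial.C b : Polynomial ℤ).natDegree ≤ m * n + (n - 1) := by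
    refine (Polynomial.natDegree_sub_le _ _).trans ?_
    rw [Polynomial.natDegree_C]
    exact max_le h3 (Nat.zero_le _)
  omega

theorem norm_pow_le_two {d : ℕ} (hd : 0 < d) {z : ℂ} (hz : z ^ d = 2) {j : ℕ} (hj : j ≤ d) :
    ‖z ^ j‖ ≤ 2 := by
  rw [norm_pow]
  have h1 : ‖z‖ ^ d = 2 := by
    rw [← norm_pow, hz]
    simp
  have h2 : 1 ≤ ‖z‖ := by
    by_contra hlt
    push Not at hlt
    have := pow_lt_one₀ (norm_nonneg z) hlt hd.ne'
    linarith
  rw [← h1]
  exact pow_le_pow_right₀ h2 hj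

theorem gpoly_bound (hn : 1 ≤ n) (q : Fin n → ℤ) (a b : ℤ) {z : ℂ}
    (hz : z ^ (m * n + n) = 2) {H : ℝ} (hH : ∀ j, |(q j : ℝ)| ≤ H) {P : ℝ} (ha : |(a : ℝ)| ≤ P)
    (hb : |(b : ℝ)| ≤ P) :
    ‖Polynomial.aeval z (gpoly m n q a b)‖ ≤ 4 * n * H + 3 * P := by
  have hd : 0 < m * n + n := by omega
  have hH0 : 0 ≤ H := (abs_nonneg _).trans (hH ⟨0, hn⟩)
  have hP0 : 0 ≤ P := (abs_nonneg _).trans ha
  unfold gpoly
  rw [map_sub, map_add, map_mul, map_mul, map_pow, map_pow, Polynomial.aeval_X, Polynomial.aeval_C,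
    Polynomial.aeval_C, aeval_vpoly]
  have h1 : ‖∑ c : Fin n, algebraMap ℤ ℂ (q c) * z ^ (1 * (c : ℕ))‖ ≤ n * (H * 2) := by
    refine (norm_sum_le _ _).trans ?_
    refine (Finset.sum_le_card_nsmul _ _ (H * 2) fun c _ => ?_).trans (le_of_eq (by simp))
    rw [norm_mul]
    refine mul_le_mul ?_ (norm_pow_le_two hd hz ?_) (norm_nonneg _) hH0
    · rw [algebraMap_int_eq, eq_intCast, Complex.norm_intCast]
      exact_mod_cast hH c
    · have := c.2
      have : 0 ≤ m * n := Nat.zero_le _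
      omega
  have h2 : ‖z ^ (m * n)‖ ≤ 2 := norm_pow_le_two hd hz (by omega)
  have h3 : ‖z ^ n‖ ≤ 2 := norm_pow_le_two hd hz (by omega)
  have ha' : ‖algebraMap ℤ ℂ a‖ ≤ P := by
    rw [algebraMap_int_eq, eq_intCast, Complex.norm_intCast]
    exact_mod_cast ha
  have hb' : ‖algebraMap ℤ ℂ b‖ ≤ P := by
    rw [algebraMap_int_eq, eq_intCast, Complex.norm_intCast]
    exact_mod_cast hb
  calc _ ≤ ‖z ^ (m * n) * ∑ c : Fin n, algebraMap ℤ ℂ (q c) * z ^ (1 * (c : ℕ))‖ +
        ‖algebraMap ℤ ℂ a * z ^ n‖ + ‖algebraMap ℤ ℂ b‖ :=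
        (norm_sub_le _ _).trans (add_le_add_left (norm_add_le _ _) _)
    _ ≤ 2 * (n * (H * 2)) + P * 2 + P := by
        rw [norm_mul, norm_mul]
        gcongr
    _ = _ := by ring

end construction

theorem admissible_of_two_le {m n : ℕ} (hm : 2 ≤ m) (hn : 1 ≤ n) : Admissible m n := by
  have hd : 0 < m * n + n := by omega
  obtain ⟨θ, hθ1, hθ⟩ := exists_theta hd
  set i0 : Fin m := ⟨0, by omega⟩ with hi0
  set i1 : Fin m := ⟨1, by omega⟩ with hi1
  set k0 : Fin n := ⟨0, hn⟩ with hk0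
  refine ⟨fmap θ i0 k0, continuous_fmap θ i0 k0, strongly_fmap (by omega) hn hθ i0 k0,
    lic_fmap hn hθ1 hθ i0 k0, ?_⟩
  intro A hL
  set t : ℝ := A i0 k0 with ht
  -- constants
  set D : ℕ := m * n + n with hD
  set K1 : ℝ := n * (4 * |t| + 4) + 1 with hK1
  set K : ℝ := 4 * n + 3 * K1 with hK
  have hK1pos : 1 ≤ K1 := by
    rw [hK1]
    have : (0 : ℝ) ≤ n * (4 * |t| + 4) := by positivity
    linarith
  have hKpos : 0 < K := by positivity
  obtain ⟨M, hM⟩ := pow_unbounded_of_one_lt (3 * K ^ (D - 1)) (by norm_num : (1 : ℝ) < 2)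
  obtain ⟨q, p, hq2, hlt⟩ := hL.2 ((D - 1 + M + 1 : ℕ) : ℝ) (by positivity)
  have hq0 : q ≠ 0 := by
    rintro rfl
    simp at hq2
    linarith
  set H : ℝ := ‖q‖ with hH
  have hHpos : 0 < H := by linarith
  have hH1 : 1 ≤ H := by linarith
  have hqH : ∀ j, |(q j : ℝ)| ≤ H := by
    intro j
    have := norm_le_pi_norm q j
    rwa [Int.norm_eq_abs] at this
  set ε : ℝ := H ^ (-((D - 1 + M + 1 : ℕ) : ℝ)) with hε
  have hε1 : ε ≤ 1 := Real.rpow_le_one_of_one_le_of_nonpos hH1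
    (neg_nonpos.mpr (Nat.cast_nonneg _))
  have hεpos : 0 < ε := Real.rpow_pos_of_pos hHpos _
  have hent : ∀ i, |(fmap θ i0 k0 A).mulVec (fun j => (q j : ℝ)) i - p i| < ε := by
    intro i
    have := norm_le_pi_norm ((fmap θ i0 k0 A).mulVec (fun j => (q j : ℝ)) - fun i => (p i : ℝ)) i
    exact lt_of_le_of_lt this hlt
  have hθpow : ∀ j, j ≤ D → θ ^ j ≤ 2 := by
    intro j hj
    rw [← hθ]
    exact pow_le_pow_right₀ hθ1 hj
  have hqv : |qv θ q| ≤ n * (H * 2) := by
    unfold qv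
    refine (Finset.abs_sum_le_sum_abs _ _).trans ?_
    refine (Finset.sum_le_card_nsmul _ _ (H * 2) fun c _ => ?_).trans (le_of_eq (by simp))
    rw [abs_mul, abs_of_nonneg (by positivity : (0 : ℝ) ≤ θ ^ (c : ℕ))]
    exact mul_le_mul (hqH c) (hθpow _ (by have := c.2; have : 0 ≤ m * n := Nat.zero_le _; omega))
      (by positivity) hHpos.le
  have e0 := hent i0
  have e1 := hent i1
  rw [fmap_mulVec] at e0 e1
  have hi00 : ((i0 : Fin m) : ℕ) = 0 := rfl
  have hi11 : ((i1 : Fin m) : ℕ) = 1 := rfl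
  rw [hi00, if_neg (by norm_num), mul_zero, pow_zero, mul_one, add_zero] at e0
  rw [hi11, if_pos rfl, mul_one] at e1
  have hnn : n ≤ D := by omega
  have hmnD : m * n ≤ D := by omega
  have hn1 : (1 : ℝ) ≤ n := by exact_mod_cast hn
  have hθn := hθpow n hnn
  have hθmn := hθpow (m * n) hmnD
  have hθn0 : 0 ≤ θ ^ n := by positivity
  have hθmn0 : 0 ≤ θ ^ (m * n) := by positivity
  -- bounds for `p`
  have htq : |t * qv θ q| ≤ |t| * (n * (H * 2)) := by
    rw [abs_mul]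
    exact mul_le_mul_of_nonneg_left hqv (abs_nonneg _)
  have hp0 : |(p i0 : ℝ)| ≤ K1 * H := by
    have h1 : |(p i0 : ℝ)| ≤ |t * qv θ q| + |t * qv θ q - p i0| := by
      have : (p i0 : ℝ) = t * qv θ q - (t * qv θ q - p i0) := by ring
      calc |(p i0 : ℝ)| = |t * qv θ q - (t * qv θ q - p i0)| := by rw [← this]
        _ ≤ _ := abs_sub _ _
    rw [hK1]
    nlinarith [abs_nonneg t, mul_nonneg (abs_nonneg t) hHpos.le,
      mul_nonneg (mul_nonneg (abs_nonneg t) hHpos.le) (by linarith : (0 : ℝ) ≤ n)]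
  have hp1 : |(p i1 : ℝ)| ≤ K1 * H := by
    have h1 : |(p i1 : ℝ)| ≤ |t * θ ^ n * qv θ q + θ ^ (m * n) * qv θ q| +
        |t * θ ^ n * qv θ q + θ ^ (m * n) * qv θ q - p i1| := by
      have : (p i1 : ℝ) = (t * θ ^ n * qv θ q + θ ^ (m * n) * qv θ q) -
        (t * θ ^ n * qv θ q + θ ^ (m * n) * qv θ q - p i1) := by ring
      calc |(p i1 : ℝ)| = |(t * θ ^ n * qv θ q + θ ^ (m * n) * qv θ q) -
        (t * θ ^ n * qv θ q + θ ^ (m * n) * qv θ q - p i1)| := by rw [← this]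
        _ ≤ _ := abs_sub _ _
    have h2 : |t * θ ^ n * qv θ q + θ ^ (m * n) * qv θ q| ≤
        (|t| * (n * (H * 2))) * 2 + (n * (H * 2)) * 2 := by
      refine (abs_add_le _ _).trans (add_le_add ?_ ?_)
      · rw [show t * θ ^ n * qv θ q = (t * qv θ q) * θ ^ n by ring, abs_mul, abs_of_nonneg hθn0]
        exact mul_le_mul htq hθn hθn0 (by positivity)
      · rw [mul_comm, abs_mul, abs_of_nonneg hθmn0]
        exact mul_le_mul hqv hθmn hθmn0 (by positivity)
    rw [hK1]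
    nlinarith [abs_nonneg t]
  -- the value at `θ`
  have hval : Polynomial.aeval θ (gpoly m n q (p i0) (p i1)) =
      (t * θ ^ n * qv θ q + θ ^ (m * n) * qv θ q - p i1) - θ ^ n * (t * qv θ q - p i0) := by
    unfold gpoly
    rw [map_sub, map_add, map_mul, map_mul, map_pow, map_pow, Polynomial.aeval_X,
      Polynomial.aeval_C, Polynomial.aeval_C, aeval_vpoly]
    unfold qv
    simp only [algebraMap_int_eq, eq_intCast, one_mul]
    ring
  have hG : |Polynomial.aeval θ (gpoly m n q (p i0) (p i1))| < 3 * ε := by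
    rw [hval]
    have h1 : |θ ^ n * (t * qv θ q - p i0)| ≤ 2 * ε := by
      rw [abs_mul, abs_of_nonneg hθn0]
      exact mul_le_mul hθn e0.le (abs_nonneg _) (by norm_num)
    have h2 := abs_sub (t * θ ^ n * qv θ q + θ ^ (m * n) * qv θ q - p i1)
      (θ ^ n * (t * qv θ q - p i0))
    linarith
  have hlow := Pool.Agent.V11270.Liou.lower hd hθ (gpoly_ne_zero hm hn hq0 (p i0) (p i1))
    (natDegree_gpoly hm hn q (p i0) (p i1)) (B := K * H) (fun z hz => by
      refine (gpoly_bound hn q (p i0) (p i1) hz hqH hp0 hp1).trans (le_of_eq ?_)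
      rw [hK]
      ring)
  have hKH : 0 < (K * H) ^ (D - 1) := by positivity
  have h1 : 1 < 3 * ε * (K * H) ^ (D - 1) :=
    lt_of_le_of_lt hlow (mul_lt_mul_of_pos_right hG hKH)
  have h2 : ε * H ^ (D - 1) * H ^ (M + 1) = 1 := by
    rw [hε, Real.rpow_neg hHpos.le, Real.rpow_natCast, mul_assoc, ← pow_add,
      show D - 1 + (M + 1) = D - 1 + M + 1 by ring]
    exact inv_mul_cancel₀ (by positivity)
  have h3 : (2 : ℝ) ^ M ≤ H ^ (M + 1) := by
    calc (2 : ℝ) ^ M ≤ H ^ M := pow_le_pow_left₀ (by norm_num) hq2 M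
      _ ≤ H ^ (M + 1) := pow_le_pow_right₀ hH1 (by omega)
  have h4 : 3 * ε * (K * H) ^ (D - 1) * H ^ (M + 1) = 3 * K ^ (D - 1) := by
    rw [mul_pow]
    linear_combination 3 * K ^ (D - 1) * h2
  have h5 : H ^ (M + 1) < 3 * ε * (K * H) ^ (D - 1) * H ^ (M + 1) :=
    lt_mul_of_one_lt_left (by positivity) h1
  rw [h4] at h5
  linarith

/-- The pair `(m, n)` is admissible if and only if `m ≥ 2`. -/
theorem result : ∀ m n : ℕ, 1 ≤ m → 1 ≤ n → (Admissible m n ↔ 2 ≤ m) := by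
  intro m n hm hn
  constructor
  · intro h
    by_contra hlt
    have : m = 1 := by omega
    subst this
    exact not_admissible_one hn h
  · exact fun h => admissible_of_two_le h hn

end Pool.Agent.Results.MP_6d7a61_nt.AdmissiblePairs
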